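import Pool.Agent.Run7.h427.DS.Alg

/-!
# Stable subspaces of a semisimple representation
-/

set_option autoImplicit false

namespace Run7.h427.DT

open Matrix Run7.h427.DS Module

variable {G : Type} [Group G] {k : Type} [Field k] {N : ℕ}

/-- stable subspaces -/
def Stab (ρ : G →* GL (Fin N) k) (W : Submodule k (Fin N → k)) : Prop :=
  ∀ g, ∀ w ∈ W, (ρ g : Matrix (Fin N) (Fin N) k) *ᵥ w ∈ W

variable {ρ : G →* GL (Fin N) k}

theorem Stab.inf {W W' : Submodule k (Fin N → k)} (h : Stab ρ W) (h' : Stab ρ W') :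
    Stab ρ (W ⊓ W') := fun g w hw => ⟨h g w hw.1, h' g w hw.2⟩

theorem Stab.sup {W W' : Submodule k (Fin N → k)} (h : Stab ρ W) (h' : Stab ρ W') :
    Stab ρ (W ⊔ W') := by
  intro g w hw
  obtain ⟨a, ha, b, hb, rfl⟩ := Submodule.mem_sup.mp hw
  rw [Matrix.mulVec_add]
  exact Submodule.add_mem_sup (h g a ha) (h' g b hb)

/-- relative complements -/
theorem exists_rel (hρ : Semis ρ) {A V : Submodule k (Fin N → k)} (hA : Stab ρ A) (hV : Stab ρ V)
    (hAV : A ≤ V) : ∃ B, Stab ρ B ∧ Disjoint A B ∧ A ⊔ B = V := by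
  obtain ⟨C, hC, hAC⟩ := hρ A hA
  refine ⟨C ⊓ V, Stab.inf hC hV, ?_, ?_⟩
  · exact hAC.disjoint.mono_right inf_le_left
  · rw [← sup_inf_assoc_of_le C hAV, hAC.sup_eq_top, top_inf_eq]

/-- a minimal nonzero stable subspace -/
theorem exists_min {V : Submodule k (Fin N → k)} (hV : Stab ρ V) (hne : V ≠ ⊥) :
    ∃ A, Stab ρ A ∧ A ≤ V ∧ A ≠ ⊥ ∧ ∀ B, Stab ρ B → B ≤ A → B = ⊥ ∨ B = A := by
  classical
  let P : ℕ → Prop := fun d => ∃ A, Stab ρ A ∧ A ≤ V ∧ A ≠ ⊥ ∧ finrank k A = d
  have hP : ∃ d, P d := ⟨_, V, hV, le_rfl, hne, rfl⟩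
  obtain ⟨A, hA1, hA2, hA3, hA4⟩ := Nat.find_spec hP
  refine ⟨A, hA1, hA2, hA3, fun B hB hBA => ?_⟩
  by_cases hB0 : B = ⊥
  · exact Or.inl hB0
  · right
    apply Submodule.eq_of_le_of_finrank_le hBA
    rw [hA4]
    exact Nat.find_min' hP ⟨B, hB, hBA.trans hA2, hB0, rfl⟩

/-- **Finitely many complements are sufficient.** -/
theorem finite_compl (hρ : Semis ρ) : ∀ (d : ℕ) (V : Submodule k (Fin N → k)), Stab ρ V →
    finrank k V ≤ d → ∃ S : Finset (Submodule k (Fin N → k)), (∀ W ∈ S, Stab ρ W) ∧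
      ∀ U, Stab ρ U → U ≤ V → ∃ W ∈ S, Disjoint U W ∧ U ⊔ W = V := by
  classical
  intro d
  induction d with
  | zero =>
    intro V hV hd
    have h0 : V = ⊥ := Submodule.finrank_eq_zero.mp (Nat.le_zero.mp hd)
    refine ⟨{⊥}, ?_, ?_⟩
    · intro W hW
      rw [Finset.mem_singleton.mp hW]
      intro g w hw
      rw [(Submodule.mem_bot k).mp hw, Matrix.mulVec_zero]
      exact Submodule.zero_mem _
    · intro U _ hUV
      refine ⟨⊥, Finset.mem_singleton_self _, disjoint_bot_right, ?_⟩
      rw [sup_bot_eq, h0]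
      exact le_bot_iff.mp (hUV.trans h0.le)
  | succ d ih =>
    intro V hV hd
    by_cases h0 : V = ⊥
    · refine ⟨{⊥}, ?_, ?_⟩
      · intro W hW
        rw [Finset.mem_singleton.mp hW]
        intro g w hw
        rw [(Submodule.mem_bot k).mp hw, Matrix.mulVec_zero]
        exact Submodule.zero_mem _
      · intro U _ hUV
        refine ⟨⊥, Finset.mem_singleton_self _, disjoint_bot_right, ?_⟩
        rw [sup_bot_eq, h0]
        exact le_bot_iff.mp (hUV.trans h0.le)
    · obtain ⟨A, hA, hAV, hA0, hAmin⟩ := exists_min hV h0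
      obtain ⟨B, hB, hAB, hABV⟩ := exists_rel hρ hA hV hAV
      have hBV : B ≤ V := by rw [← hABV]; exact le_sup_right
      have hBd : finrank k B ≤ d := by
        have h1 := Submodule.finrank_sup_add_finrank_inf_eq A B
        rw [hABV, hAB.eq_bot, finrank_bot, add_zero] at h1
        have h2 : 0 < finrank k A := by
          rw [Nat.pos_iff_ne_zero]
          exact fun h => hA0 (Submodule.finrank_eq_zero.mp h)
        omega
      obtain ⟨S, hS, hSc⟩ := ih B hB hBd
      refine ⟨S ∪ S.image (fun W => A ⊔ W), ?_, ?_⟩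
      · intro W hW
        rcases Finset.mem_union.mp hW with h | h
        · exact hS W h
        · obtain ⟨W', hW', rfl⟩ := Finset.mem_image.mp h
          exact Stab.sup hA (hS W' hW')
      · intro U hU hUV
        have hU' : Stab ρ ((U ⊔ A) ⊓ B) := Stab.inf (Stab.sup hU hA) hB
        obtain ⟨W, hW, hd1, hd2⟩ := hSc _ hU' inf_le_right
        have hWB : W ≤ B := by rw [← hd2]; exact le_sup_right
        have hdis : Disjoint (U ⊔ A) W := by
          rw [disjoint_iff, eq_bot_iff]
          calc (U ⊔ A) ⊓ W ≤ ((U ⊔ A) ⊓ B) ⊓ W :=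
                le_inf (le_inf inf_le_left (inf_le_right.trans hWB)) inf_le_right
            _ = ⊥ := hd1.eq_bot
        have hsup : (U ⊔ A) ⊔ W = V := by
          apply le_antisymm
          · exact sup_le (sup_le hUV hAV) (hWB.trans hBV)
          · rw [← hABV]
            refine sup_le (le_sup_right.trans le_sup_left) ?_
            rw [← hd2]
            exact sup_le (inf_le_left.trans le_sup_left) le_sup_right
        rcases hAmin (U ⊓ A) (Stab.inf hU hA) inf_le_right with h | h
        · refine ⟨A ⊔ W, Finset.mem_union_right _ (Finset.mem_image_of_mem _ hW), ?_, ?_⟩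
          · exact Disjoint.disjoint_sup_right_of_disjoint_sup_left (disjoint_iff.mpr h) hdis
          · rw [← sup_assoc]
            exact hsup
        · have hAU : A ≤ U := by rw [← h]; exact inf_le_left
          have h2 : U ⊔ A = U := sup_eq_left.mpr hAU
          rw [h2] at hdis hsup
          exact ⟨W, Finset.mem_union_left _ hW, hdis, hsup⟩

/-- the action on a stable subspace -/
noncomputable def act (ρ : G →* GL (Fin N) k) (U : Submodule k (Fin N → k)) (hU : Stab ρ U) (g : G) :
    Module.End k U :=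
  (Matrix.toLin' (ρ g : Matrix (Fin N) (Fin N) k)).restrict (p := U) (q := U) (fun w hw => by
    rw [Matrix.toLin'_apply]
    exact hU g w hw)

theorem act_apply (U : Submodule k (Fin N → k)) (hU : Stab ρ U) (g : G) (w : U) :
    (act ρ U hU g w : Fin N → k) = (ρ g : Matrix (Fin N) (Fin N) k) *ᵥ (w : Fin N → k) := by
  change (Matrix.toLin' (ρ g : Matrix (Fin N) (Fin N) k)) (w : Fin N → k) = _
  rw [Matrix.toLin'_apply]

theorem act_mul (U : Submodule k (Fin N → k)) (hU : Stab ρ U) (g h : G) (u : U) :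
    act ρ U hU (g * h) u = act ρ U hU g (act ρ U hU h u) := by
  apply Subtype.ext
  rw [act_apply U hU g, act_apply U hU h, act_apply U hU (g * h), map_mul, Units.val_mul,
    Matrix.mulVec_mulVec]

/-- two stable subspaces with the same complement have the same characteristic polynomials -/
theorem charpoly_of_compl {U U' W : Submodule k (Fin N → k)} (hU : Stab ρ U) (hU' : Stab ρ U')
    (hW : Stab ρ W) (h : IsCompl U W) (h' : IsCompl U' W) (g : G) :
    (act ρ U hU g).charpoly = (act ρ U' hU' g).charpoly := by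
  -- the projection along `W`
  let e : U ≃ₗ[k] U' := (Submodule.quotientEquivOfIsCompl W U h.symm).symm.trans
    (Submodule.quotientEquivOfIsCompl W U' h'.symm)
  have he : ∀ u : U, ((e u : U') : Fin N → k) - u ∈ W := by
    intro u
    have h1 : (Submodule.quotientEquivOfIsCompl W U' h'.symm).symm (e u) =
        (Submodule.quotientEquivOfIsCompl W U h.symm).symm u := by
      exact LinearEquiv.symm_apply_apply (Submodule.quotientEquivOfIsCompl W U' h'.symm) _
    rw [Submodule.quotientEquivOfIsCompl_symm_apply, Submodule.quotientEquivOfIsCompl_symm_apply,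
      Submodule.Quotient.eq] at h1
    exact h1
  have hc : act ρ U' hU' g = e.conj (act ρ U hU g) := by
    apply LinearMap.ext
    intro w
    rw [LinearEquiv.conj_apply_apply]
    obtain ⟨u, rfl⟩ := e.surjective w
    rw [LinearEquiv.symm_apply_apply]
    apply Subtype.ext
    rw [← sub_eq_zero]
    have h1 := he (act ρ U hU g u)
    have h2 := hW g _ (he u)
    rw [Matrix.mulVec_sub, ← act_apply U' hU', ← act_apply U hU] at h2
    have h3 := W.sub_mem h2 h1
    rw [sub_sub_sub_cancel_right] at h3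
    have h4 : ((act ρ U' hU' g (e u) : U') : Fin N → k) - ((e (act ρ U hU g u) : U') : Fin N → k)
      ∈ U' := U'.sub_mem (Subtype.mem _) (Subtype.mem _)
    have h5 := h'.disjoint.le_bot ⟨h4, h3⟩
    exact (Submodule.mem_bot k).mp h5
  rw [hc, LinearEquiv.charpoly_conj]

/-- **The matrices of a stable subspace.** -/
theorem exists_subrep (hρ : Semis ρ) {U : Submodule k (Fin N → k)} (hU : Stab ρ U) {n : ℕ}
    (hn : finrank k U = n) :
    ∃ (X : G →* GL (Fin n) k) (P : Matrix (Fin n) (Fin N) k) (I : Matrix (Fin N) (Fin n) k),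
      Semis X ∧ (∀ g, (X g : Matrix (Fin n) (Fin n) k) = P * (ρ g : Matrix (Fin N) (Fin N) k) * I) ∧
      ∀ g, (X g : Matrix (Fin n) (Fin n) k).charpoly = (act ρ U hU g).charpoly := by
  classical
  let b : Basis (Fin n) k U := (finBasis k U).reindex (finCongr hn)
  obtain ⟨W, hW, hUW⟩ := hρ U hU
  let pr : (Fin N → k) →ₗ[k] U := U.projectionOnto W hUW
  have hpr : ∀ u : U, pr u = u := fun u => Submodule.projectionOnto_apply_left hUW u
  let Il : (Fin n → k) →ₗ[k] (Fin N → k) := U.subtype.comp b.equivFun.symm.toLinearMap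
  let Pl : (Fin N → k) →ₗ[k] (Fin n → k) := b.equivFun.toLinearMap.comp pr
  let I : Matrix (Fin N) (Fin n) k := LinearMap.toMatrix' Il
  let P : Matrix (Fin n) (Fin N) k := LinearMap.toMatrix' Pl
  have hI : ∀ v, I *ᵥ v = (b.equivFun.symm v : U) := by
    intro v
    rw [← Matrix.toLin'_apply, Matrix.toLin'_toMatrix']
    rfl
  have hP : ∀ u : U, P *ᵥ (u : Fin N → k) = b.equivFun u := by
    intro u
    rw [← Matrix.toLin'_apply, Matrix.toLin'_toMatrix']
    change b.equivFun (pr u) = _
    rw [hpr]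
  let M : G → Matrix (Fin n) (Fin n) k := fun g => P * (ρ g : Matrix (Fin N) (Fin N) k) * I
  have hM : ∀ g v, M g *ᵥ v = b.equivFun (act ρ U hU g (b.equivFun.symm v)) := by
    intro g v
    change (P * (ρ g : Matrix (Fin N) (Fin N) k) * I) *ᵥ v = _
    rw [← Matrix.mulVec_mulVec, ← Matrix.mulVec_mulVec, hI, ← act_apply U hU, hP]
  have hM1 : M 1 = 1 := by
    apply Matrix.toLin'.injective
    apply LinearMap.ext
    intro v
    rw [Matrix.toLin'_apply, hM, Matrix.toLin'_one, LinearMap.id_apply]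
    have h1 : act ρ U hU 1 (b.equivFun.symm v) = b.equivFun.symm v := by
      apply Subtype.ext
      rw [act_apply, map_one, Units.val_one, Matrix.one_mulVec]
    rw [h1, LinearEquiv.apply_symm_apply]
  have hMm : ∀ g h, M (g * h) = M g * M h := by
    intro g h
    apply Matrix.toLin'.injective
    apply LinearMap.ext
    intro v
    rw [Matrix.toLin'_apply, hM, Matrix.toLin'_apply, ← Matrix.mulVec_mulVec, hM, hM,
      LinearEquiv.symm_apply_apply, act_mul]
  let X0 : G →* Matrix (Fin n) (Fin n) k := ⟨⟨M, hM1⟩, hMm⟩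
  let X : G →* GL (Fin n) k := X0.toHomUnits
  have hX : ∀ g, (X g : Matrix (Fin n) (Fin n) k) = M g := fun g => rfl
  refine ⟨X, P, I, ?_, hX, ?_⟩
  · intro W₁ hW₁
    let e := b.equivFun
    let W₂ : Submodule k (Fin N → k) := W₁.map Il
    have hIl : ∀ v, Il v = (e.symm v : U) := fun v => rfl
    have hW₂ : Stab ρ W₂ := by
      rintro g _ ⟨w, hw, rfl⟩
      refine ⟨(X g : Matrix (Fin n) (Fin n) k) *ᵥ w, hW₁ g w hw, ?_⟩
      rw [hX, hM, hIl, LinearEquiv.symm_apply_apply, act_apply, hIl]
    obtain ⟨C, hC, hWC⟩ := hρ W₂ hW₂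
    refine ⟨C.comap Il, ?_, ?_⟩
    · intro g w hw
      rw [Submodule.mem_comap] at hw ⊢
      rw [hX, hM, hIl, LinearEquiv.symm_apply_apply, act_apply, ← hIl]
      exact hC g _ hw
    · constructor
      · rw [disjoint_iff, eq_bot_iff]
        rintro w ⟨h1, h2⟩
        have h3 : Il w ∈ W₂ ⊓ C := ⟨⟨w, h1, rfl⟩, h2⟩
        rw [hWC.disjoint.eq_bot] at h3
        have h4 : Il w = 0 := (Submodule.mem_bot k).mp h3
        rw [hIl] at h4
        have h5 : e.symm w = 0 := Subtype.ext h4
        rw [Submodule.mem_bot]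
        exact (LinearEquiv.map_eq_zero_iff _).mp h5
      · rw [codisjoint_iff, eq_top_iff]
        intro w _
        have h1 : Il w ∈ W₂ ⊔ C := by rw [hWC.sup_eq_top]; exact Submodule.mem_top
        obtain ⟨a, ⟨w₁, hw₁, rfl⟩, c, hc, hac⟩ := Submodule.mem_sup.mp h1
        have h2 : c = Il (w - w₁) := by
          rw [map_sub, ← hac, add_sub_cancel_left]
        refine Submodule.mem_sup.mpr ⟨w₁, hw₁, w - w₁, ?_, by rw [add_sub_cancel]⟩
        rw [Submodule.mem_comap, ← h2]
        exact hc
  · intro g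
    rw [hX]
    have h1 : LinearMap.toMatrix b b (act ρ U hU g) = M g := by
      apply Matrix.toLin'.injective
      apply LinearMap.ext
      intro v
      rw [Matrix.toLin'_apply, Matrix.toLin'_apply, hM]
      have h2 := LinearMap.toMatrix_mulVec_repr b b (act ρ U hU g) (b.equivFun.symm v)
      have h3 : (b.repr (b.equivFun.symm v) : Fin n → k) = v := by
        rw [← Basis.equivFun_apply, LinearEquiv.apply_symm_apply]
      rw [h3] at h2
      rw [h2, ← Basis.equivFun_apply]
    rw [← h1, LinearMap.charpoly_toMatrix]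

end Run7.h427.DT
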