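import Mathlib

/-!
# Power sums of eigenvalues, and matching of multisets multiplied by roots of unity
-/

set_option autoImplicit false

namespace Run7.h427.DT

open Module Module.End Polynomial

variable {k : Type} [Field k]

/-- the traces of the powers are the power sums of the eigenvalues -/
theorem trace_pow_eq {V : Type} [AddCommGroup V] [Module k V] [IsAlgClosed k]
    [FiniteDimensional k V] (x : End k V) (j : ℕ) :
    LinearMap.trace k V (x ^ j) = (x.charpoly.roots.map fun a => a ^ j).sum := by
  classical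
  have hint : DirectSum.IsInternal fun μ : k => x.maxGenEigenspace μ :=
    DirectSum.isInternal_submodule_of_iSupIndep_of_iSup_eq_top x.independent_maxGenEigenspace
      (iSup_maxGenEigenspace_eq_top x)
  have hfin : {μ : k | x.maxGenEigenspace μ ≠ ⊥}.Finite :=
    WellFoundedGT.finite_ne_bot_of_iSupIndep x.independent_maxGenEigenspace
  have hmaps : ∀ (j : ℕ) (μ : k), Set.MapsTo (x ^ j) (x.maxGenEigenspace μ)
      (x.maxGenEigenspace μ) := fun j μ =>
    mapsTo_maxGenEigenspace_of_comm (Commute.pow_right (Commute.refl x) j) μ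
  rw [LinearMap.trace_eq_sum_trace_restrict' hint hfin (hmaps j), Finset.sum_multiset_map_count]
  have hloc : ∀ (μ : k) (j : ℕ), LinearMap.trace k (x.maxGenEigenspace μ)
      ((x ^ j).restrict (hmaps j μ)) = μ ^ j * finrank k (x.maxGenEigenspace μ) := by
    intro μ j
    induction j with
    | zero =>
      have h1 : (x ^ 0).restrict (hmaps 0 μ) = 1 := by
        apply LinearMap.ext
        intro v
        apply Subtype.ext
        rw [LinearMap.coe_restrict_apply, pow_zero]
        rfl
      rw [h1, LinearMap.trace_one, pow_zero, one_mul]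
    | succ j ih =>
      have hx1 : ∀ v ∈ x.maxGenEigenspace μ, x v ∈ x.maxGenEigenspace μ := fun v hv =>
        mapsTo_maxGenEigenspace_of_comm (Commute.refl x) μ hv
      have h1 : (x ^ (j + 1)).restrict (hmaps (j + 1) μ) =
          (x ^ j).restrict (hmaps j μ) ∘ₗ x.restrict hx1 := by
        apply LinearMap.ext
        intro v
        apply Subtype.ext
        rw [LinearMap.coe_restrict_apply, pow_succ, LinearMap.comp_apply,
          LinearMap.coe_restrict_apply, LinearMap.coe_restrict_apply]
        rfl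
      have h2 : Commute ((x ^ j).restrict (hmaps j μ)) (x.restrict hx1) := by
        apply LinearMap.ext
        intro v
        apply Subtype.ext
        change (x ^ j) (x v) = x ((x ^ j) v)
        have h3 : (x ^ j * x) v = (x * x ^ j) v := by rw [← pow_succ, ← pow_succ']
        exact h3
      have hm : Set.MapsTo (x - algebraMap k (End k V) μ) (x.maxGenEigenspace μ)
          (x.maxGenEigenspace μ) :=
        mapsTo_maxGenEigenspace_of_comm ((Commute.refl x).sub_right
          (Algebra.commute_algebraMap_right μ x)) μ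
      have h3 := x.isNilpotent_restrict_maxGenEigenspace_sub_algebraMap μ hm
      have h4 : (x - algebraMap k (End k V) μ).restrict hm =
          x.restrict hx1 - algebraMap k (End k (x.maxGenEigenspace μ)) μ := by
        apply LinearMap.ext
        intro v
        apply Subtype.ext
        rfl
      rw [h4] at h3
      rw [h1, LinearMap.trace_comp_eq_mul_of_commute_of_isNilpotent μ h2 h3, ih, pow_succ']
      ring
  rw [Finset.sum_congr rfl fun μ _ => hloc μ j]
  have hset : hfin.toFinset = x.charpoly.roots.toFinset := by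
    ext μ
    rw [Set.Finite.mem_toFinset, Multiset.mem_toFinset,
      Polynomial.mem_roots x.charpoly_monic.ne_zero,
      ← Polynomial.rootMultiplicity_pos x.charpoly_monic.ne_zero,
      ← LinearMap.finrank_maxGenEigenspace_eq, Set.mem_ofPred_eq, Nat.pos_iff_ne_zero, not_iff_not]
    exact Submodule.finrank_eq_zero.symm
  rw [hset]
  refine Finset.sum_congr rfl fun μ _ => ?_
  rw [Polynomial.count_roots, ← LinearMap.finrank_maxGenEigenspace_eq, nsmul_eq_mul, mul_comm]

/-- the traces of the powers of a matrix -/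
theorem trace_pow_eq' [IsAlgClosed k] {n : ℕ} (A : Matrix (Fin n) (Fin n) k) (j : ℕ) :
    (A ^ j).trace = (A.charpoly.roots.map fun a => a ^ j).sum := by
  have h1 := trace_pow_eq (Matrix.toLin' A) j
  rw [Matrix.charpoly_toLin'] at h1
  rw [← h1, ← Matrix.toLin'_pow, Matrix.trace_toLin'_eq]

/-- multisets with the same power sums are equal -/
theorem eq_of_pow_sums [CharZero k] (s t : Multiset k)
    (h : ∀ j : ℕ, (s.map fun a => a ^ j).sum = (t.map fun a => a ^ j).sum) : s = t := by
  classical
  let D : Finset k := s.toFinset ∪ t.toFinset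
  have hs : ∀ j : ℕ, (s.map fun a => a ^ j).sum = ∑ a ∈ D, (s.count a : k) * a ^ j := by
    intro j
    rw [Finset.sum_multiset_map_count]
    simp only [nsmul_eq_mul]
    apply Finset.sum_subset Finset.subset_union_left
    intro a _ ha
    rw [Multiset.mem_toFinset] at ha
    rw [Multiset.count_eq_zero_of_notMem ha, Nat.cast_zero, zero_mul]
  have ht : ∀ j : ℕ, (t.map fun a => a ^ j).sum = ∑ a ∈ D, (t.count a : k) * a ^ j := by
    intro j
    rw [Finset.sum_multiset_map_count]
    simp only [nsmul_eq_mul]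
    apply Finset.sum_subset Finset.subset_union_right
    intro a _ ha
    rw [Multiset.mem_toFinset] at ha
    rw [Multiset.count_eq_zero_of_notMem ha, Nat.cast_zero, zero_mul]
  have hli := (linearIndependent_monoidHom (Multiplicative ℕ) k).comp (powersHom k)
    (powersHom k).injective
  rw [linearIndependent_iff'] at hli
  have h0 := hli D (fun a => (s.count a : k) - (t.count a : k)) (by
    funext j
    rw [Finset.sum_apply]
    simp only [Function.comp_apply, Pi.smul_apply, smul_eq_mul, powersHom_apply, Pi.zero_apply,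
      sub_mul, Finset.sum_sub_distrib]
    rw [← hs, ← ht, h, sub_self])
  ext a
  by_cases ha : a ∈ D
  · have h1 := sub_eq_zero.mp (h0 a ha)
    exact_mod_cast h1
  · rw [Finset.mem_union, not_or, Multiset.mem_toFinset, Multiset.mem_toFinset] at ha
    rw [Multiset.count_eq_zero_of_notMem ha.1, Multiset.count_eq_zero_of_notMem ha.2]

/-- **Matching of multisets.**  The `m`-th roots of unity `z i` are different, and no element of
`a i` is an `m`-th root of unity times a different element of `b j`. -/
theorem match_multisets {ι : Type} [Fintype ι] (a b : ι → Multiset k) (z : ι → kˣ)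
    (hz : Function.Injective z) (m : ℕ) (hzm : ∀ i, z i ^ m = 1)
    (heq : ∑ i, (a i).map (fun x => (z i : k) * x) = ∑ i, (b i).map (fun x => (z i : k) * x))
    (h0 : ∀ i, (0 : k) ∉ b i)
    (hgen : ∀ i j, ∀ α ∈ a i, ∀ β ∈ b j, ∀ η : kˣ, η ^ m = 1 → β = η * α → β = α) (i : ι) :
    a i = b i := by
  classical
  -- the elements of the two unions
  have hab : ∀ i, ∀ α ∈ a i, ∃ j, α ∈ b j := by
    intro i α hα
    have h1 : (z i : k) * α ∈ ∑ j, (b j).map (fun x => (z j : k) * x) := by
      rw [← heq, Multiset.mem_sum]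
      exact ⟨i, Finset.mem_univ i, Multiset.mem_map_of_mem _ hα⟩
    rw [Multiset.mem_sum] at h1
    obtain ⟨j, -, hj⟩ := h1
    obtain ⟨β, hβ, hβα⟩ := Multiset.mem_map.mp hj
    have h2 : β = ((z j)⁻¹ * z i : kˣ) * α := by
      rw [Units.val_mul, mul_assoc, ← hβα, Units.inv_mul_cancel_left]
    have h3 := hgen i j α hα β hβ ((z j)⁻¹ * z i) (by
      rw [mul_pow, inv_pow, hzm, hzm, inv_one, one_mul]) h2
    exact ⟨j, h3 ▸ hβ⟩
  have hba : ∀ j, ∀ β ∈ b j, ∃ i, β ∈ a i := by
    intro j β hβ
    have h1 : (z j : k) * β ∈ ∑ i, (a i).map (fun x => (z i : k) * x) := by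
      rw [heq, Multiset.mem_sum]
      exact ⟨j, Finset.mem_univ j, Multiset.mem_map_of_mem _ hβ⟩
    rw [Multiset.mem_sum] at h1
    obtain ⟨i, -, hi⟩ := h1
    obtain ⟨α, hα, hβα⟩ := Multiset.mem_map.mp hi
    have h2 : β = ((z j)⁻¹ * z i : kˣ) * α := by
      rw [Units.val_mul, mul_assoc, hβα, Units.inv_mul_cancel_left]
    have h3 := hgen i j α hα β hβ ((z j)⁻¹ * z i) (by
      rw [mul_pow, inv_pow, hzm, hzm, inv_one, one_mul]) h2
    exact ⟨i, h3 ▸ hα⟩
  have hcount : ∀ (c : ι → Multiset k) (γ : k),
      (∀ j, j ≠ i → ((z j)⁻¹ * z i : kˣ) * γ ∉ c j) →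
      (∑ j, (c j).map (fun x => (z j : k) * x)).count ((z i : k) * γ) = (c i).count γ := by
    intro c γ hc
    rw [Multiset.count_sum', Finset.sum_eq_single i]
    · exact Multiset.count_map_eq_count' _ _ (fun a b h => mul_left_cancel₀ (z i).ne_zero h) _
    · intro j _ hj
      rw [Multiset.count_eq_zero, Multiset.mem_map]
      rintro ⟨β, hβ, hβγ⟩
      apply hc j hj
      rw [Units.val_mul, mul_assoc, ← hβγ, Units.inv_mul_cancel_left]
      exact hβ
    · intro h
      exact absurd (Finset.mem_univ i) h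
  have hne : ∀ (j : ι) (γ : k), j ≠ i → γ ≠ 0 → ((z j)⁻¹ * z i : kˣ) * γ ≠ γ := by
    intro j γ hj hγ h
    apply hj
    apply hz
    have h1 : (((z j)⁻¹ * z i : kˣ) : k) = 1 := mul_right_cancel₀ hγ (h.trans (one_mul γ).symm)
    exact inv_mul_eq_one.mp (Units.ext h1)
  have hpw : ∀ j, ((z j)⁻¹ * z i) ^ m = 1 := fun j => by
    rw [mul_pow, inv_pow, hzm, hzm, inv_one, one_mul]
  ext γ
  by_cases hγ : ∃ j, γ ∈ b j
  · obtain ⟨j₀, hj₀⟩ := hγ
    obtain ⟨i₀, hi₀⟩ := hba j₀ γ hj₀
    have hγ0 : γ ≠ 0 := by
      rintro rfl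
      exact h0 j₀ hj₀
    rw [← hcount a γ, ← hcount b γ, heq]
    · intro j hj hjb
      exact hne j γ hj hγ0 (hgen i₀ j γ hi₀ _ hjb _ (hpw j) rfl)
    · intro j hj hja
      have h1 := hgen j j₀ _ hja γ hj₀ ((z j)⁻¹ * z i)⁻¹ (by rw [inv_pow, hpw, inv_one]) (by
        rw [Units.inv_mul_cancel_left])
      exact hne j γ hj hγ0 h1.symm
  · rw [Multiset.count_eq_zero_of_notMem, Multiset.count_eq_zero_of_notMem]
    · exact fun h => hγ ⟨i, h⟩
    · exact fun h => hγ (hab i γ h)

end Run7.h427.DT
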